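import Pool.Agent.N733.TG.K
import Pool.Agent.N481.MV.Two
import Pool.Agent.N905.EX.Law
import Pool.Agent.Results.MP_a1568a_nt.PowerSavingLaw

/-!
# The `3x+1` map in logarithmic time near the values of multiplicative functions

Let `f` be a positive multiplicative function of at most polynomial growth such that `f p ≤ M p` for the large primes `p`,
with different values at different large primes; for example Euler's function or the sum of the divisors. Let `α > 0`,
`d ≥ 1` and `κ ≥ 0`.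

* For every `ε > 0` there is `c > 0` such that, if `d (1 - min v (c δ)) + κ < 1`, then for all `m ≤ N` but `N / (log N)^U` the
  trajectory of EVERY integer `n ≥ 1` with `|n - α f(m)^d| ≤ f(m)^κ` follows the law of the random walk: it reaches a value
  `≤ n^δ` in at most `(1 + ε) (2 / log (4/3)) log n` steps, and until then `log T^j n` is `log n - (j/2) log (4/3)` up to
  `ε log n`, and `T^j n ≤ n^(1+v)`.
* Let `B` be large, `0 < δ ≤ 1` and `d (1 - 0.06 δ) + κ < 1`. Then for all `m ≤ N` but `N / (log N)^U` the conjectured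
  inequality is inherited by EVERY integer `n ≥ 1` with `|n - α f(m)^d| ≤ f(m)^κ`: `n` reaches some `u ≤ n^δ` in at most
  `B log (n / u)` steps; so `n` reaches `1` in at most `B log n` steps, if `u` reaches `1` in at most `B log u` steps.

More generally `G (f m)` takes the place of `α f(m)^d`, where `G` is any function with steps bounded below by a positive
constant and growth at most `v^d`. The values of `f` are in general taken with very large multiplicities, and so this does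
not follow from the sizes of the exceptional sets.

Proof. Write `m = k w` where `k` is composed of the primes `≤ z = N^(1 / J)`, `J` about `log log N`. For most `m` one has
`k ≤ N^η`, and `w` is a product of at most `J` different primes. So `f(w)` is taken at most `(1 + τ)^J` times, `τ` its number of
divisors, which is at most `N^o(1)` on average, even in mean square: and the exceptional sets have only `N^(1 - η)` elements,
by the starting theorem `PowerSavingLaw` and by the explicit constant of helper905 (`Pool.Agent.N905.EX.Law`).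
-/

set_option autoImplicit false

namespace Pool.Agent.Results.MP_a1568a_nt.MultiplicativeValues

open Finset
open Pool.Agent.N733.TG (LM Expanding lm_totient lm_sigma keep_good expanding_pow)
open Pool.Agent.TH930.LT Pool.Agent.N905.EX
open Pool.Agent.Results.MP_a1568a_nt.PowerSavingLaw (T Regular T_eq)

/-- `n` reaches some `T^m(n) ≤ y` after `m ≤ B log (n / T^m(n))` steps -/
def Descends (B y : ℝ) (n : ℕ) : Prop :=
  ∃ m : ℕ, ((T^[m] n : ℕ) : ℝ) ≤ y ∧ (m : ℝ) ≤ B * Real.log ((n : ℝ) / (T^[m] n : ℕ))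

/-- `n` reaches `1` after at most `B log n` steps -/
def Fast (B : ℝ) (n : ℕ) : Prop := ∃ k : ℕ, (k : ℝ) ≤ B * Real.log n ∧ T^[k] n = 1

lemma iter_pos {n : ℕ} (hn : 1 ≤ n) (m : ℕ) : 0 < T^[m] n := by
  rw [T_eq]; exact Pool.Agent.H377R2.iter_pos hn m

lemma desc_iff {B y : ℝ} {n : ℕ} (hn : 1 ≤ n) : ¬ Descends B y n ↔ timeBad B y n := by
  unfold Descends timeBad
  rw [T_eq, not_iff_not]
  apply exists_congr
  intro m
  have h1 : (0 : ℝ) < n := by exact_mod_cast hn
  have h2 : (0 : ℝ) < (Pool.Agent.Helper894.Collatz.T^[m] n : ℕ) := by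
    exact_mod_cast Pool.Agent.H377R2.iter_pos hn m
  rw [Real.log_div h1.ne' h2.ne']

lemma desc_mono {B B' y y' : ℝ} {n : ℕ} (hB : 0 < B) (hBB : B ≤ B') (hy : y ≤ y') (h : Descends B y n) :
    Descends B' y' n := by
  obtain ⟨m, h1, h2⟩ := h
  refine ⟨m, h1.trans hy, h2.trans ?_⟩
  apply mul_le_mul_of_nonneg_right hBB
  have h3 : (0 : ℝ) ≤ B * Real.log ((n : ℝ) / (T^[m] n : ℕ)) := le_trans (Nat.cast_nonneg m) h2
  exact nonneg_of_mul_nonneg_right h3 hB

lemma descent_law : ∃ B₁ C : ℝ, 0 < B₁ ∧ 0 < C ∧ ∀ B x y : ℝ, B₁ ≤ B → 2 ≤ x → 1 ≤ y →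
    ({n : ℕ | 1 ≤ n ∧ (n : ℝ) ≤ x ∧ ¬ Descends B y n}.ncard : ℝ) ≤
      C * Real.log x ^ 3 * (x / y ^ (6 / 100 : ℝ)) := by
  obtain ⟨a, C₁, ha0, -, hC₁, hQ⟩ := card_Ps
  have e94 : (1 : ℝ) - 6 / 100 = 94 / 100 := by norm_num
  obtain ⟨C, hC, h⟩ := time_law (c := 6 / 100) (B := 2 / a) ha0 hC₁
    (fun i => by rw [e94]; exact hQ i)
    (by positivity) (by rw [div_mul_cancel₀ _ ha0.ne']; norm_num) (by norm_num) (by norm_num)
  have hB0 : 0 < 2 / a := by positivity
  refine ⟨2 / a, C, hB0, hC, fun B x y hB hx hy => ?_⟩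
  have hfin : ∀ P : ℕ → Prop, {n : ℕ | 1 ≤ n ∧ (n : ℝ) ≤ x ∧ P n}.Finite := by
    intro P
    apply (Set.finite_Icc 1 ⌊x⌋₊).subset
    rintro n ⟨h1, h2, -⟩
    exact ⟨h1, Nat.le_floor h2⟩
  have h2 := h x y hx hy
  refine le_trans ?_ h2
  have hsub : {n : ℕ | 1 ≤ n ∧ (n : ℝ) ≤ x ∧ ¬ Descends B y n} ⊆
      {n : ℕ | 1 ≤ n ∧ (n : ℝ) ≤ x ∧ timeBad (2 / a) y n} := by
    rintro n ⟨a1, a2, a3⟩
    exact ⟨a1, a2, (desc_iff a1).1 (fun hd => a3 (desc_mono hB0 hB le_rfl hd))⟩
  exact_mod_cast Set.ncard_le_ncard hsub (hfin _)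

lemma regular_mono {ε y y' V V' : ℝ} {n : ℕ} (hy : y ≤ y') (hV : V ≤ V') (h : Regular ε y V n) :
    Regular ε y' V' n := by
  obtain ⟨m, h1, h2, h3⟩ := h
  exact ⟨m, h1.trans hy, h2, fun j hj => ⟨(h3 j hj).1, (h3 j hj).2.trans hV⟩⟩

/-- **Trajectories near the values of multiplicative functions.** Let `f` be multiplicative and positive, of at most
polynomial growth, with `f p ≤ M p` at the large primes, and injective there. Let `G` have steps `≥ const > 0` and growth at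
most `v^d`, and `κ ≥ 0`. (1) For every `ε > 0` there is `c > 0`, not depending on `f`, `G`, such that for `0 < v ≤ 1`, `δ > 0`
and `d (1 - min v (c δ)) + κ < 1`: for all large `N`, for all `m ≤ N` but `N / (log N)^U`, EVERY integer `n ≥ 1` with
`|n - G (f m)| ≤ f(m)^κ` satisfies `Regular ε (n^δ) (n^(1+v))`. (2) There is `B₁` such that for `B ≥ B₁`, `0 < δ ≤ 1` and
`d (1 - 0.06 δ) + κ < 1`: for all large `N`, for all `m ≤ N` but `N / (log N)^U`, EVERY integer `n ≥ 1` with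
`|n - G (f m)| ≤ f(m)^κ` reaches some `u ≤ n^δ` after at most `B log (n / u)` steps. (3) Such an `n` reaches `1` after at most
`B log n` steps, if this is true for all `u ≤ n^δ`. Euler's function and the sum of the divisors are examples of such functions
`f`, and `α v^d` with `α > 0`, `d ≥ 1` is an example of `G`. -/
theorem result :
    (∀ ε : ℝ, 0 < ε → ∃ c : ℝ, 0 < c ∧
      ∀ f : ℕ → ℕ, LM f → ∀ (G : ℕ → ℝ) (d : ℝ), Expanding G d → ∀ v δ κ : ℝ, 0 < v → v ≤ 1 → 0 < δ → 0 ≤ κ →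
        d * (1 - min v (c * δ)) + κ < 1 → ∀ U : ℕ, ∃ N₀ : ℕ, ∀ N : ℕ, N₀ ≤ N →
          ({m : ℕ | 1 ≤ m ∧ m ≤ N ∧ ¬ ∀ n : ℕ, 1 ≤ n → |(n : ℝ) - G (f m)| ≤ (f m : ℝ) ^ κ →
            Regular ε ((n : ℝ) ^ δ) ((n : ℝ) ^ (1 + v)) n}.ncard : ℝ) ≤ N / Real.log N ^ U) ∧
    (∃ B₁ : ℝ, 0 < B₁ ∧ ∀ B : ℝ, B₁ ≤ B →
      ∀ f : ℕ → ℕ, LM f → ∀ (G : ℕ → ℝ) (d : ℝ), Expanding G d → ∀ δ κ : ℝ, 0 < δ → δ ≤ 1 → 0 ≤ κ →
        d * (1 - 6 / 100 * δ) + κ < 1 → ∀ U : ℕ, ∃ N₀ : ℕ, ∀ N : ℕ, N₀ ≤ N →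
          ({m : ℕ | 1 ≤ m ∧ m ≤ N ∧ ¬ ∀ n : ℕ, 1 ≤ n → |(n : ℝ) - G (f m)| ≤ (f m : ℝ) ^ κ →
            Descends B ((n : ℝ) ^ δ) n}.ncard : ℝ) ≤ N / Real.log N ^ U) ∧
    (∀ (B δ : ℝ) (n : ℕ), 1 ≤ n → Descends B ((n : ℝ) ^ δ) n →
      (∀ u : ℕ, 1 ≤ u → (u : ℝ) ≤ (n : ℝ) ^ δ → Fast B u) → Fast B n) ∧
    (LM Nat.totient ∧ LM (fun m => ∑ d ∈ m.divisors, d)) ∧
    ∀ α d : ℝ, 0 < α → 1 ≤ d → Expanding (fun v => α * (v : ℝ) ^ d) d := by
  refine ⟨fun ε hε => ?_, ?_, ?_, ⟨lm_totient, lm_sigma⟩, fun α d hα hd => expanding_pow hα hd⟩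
  · obtain ⟨c, C, hc, hC, law⟩ := PowerSavingLaw.result ε hε
    refine ⟨c, hc, fun f hf G d hG v δ κ hv hv1 hδ hκ h1 U => ?_⟩
    exact keep_good (fun n : ℕ => 1 ≤ n) (fun n => Regular ε ((n : ℝ) ^ δ) ((n : ℝ) ^ (1 + v)) n)
      (fun n : ℕ => (n : ℝ)) hf hG (s := 1 - min v (c * δ)) (κ := κ) (by linarith [min_le_left v (c * δ)]) hκ h1
      (Pool.Agent.N481.MV.two_scale (Bad := fun y V n => ¬ Regular ε y V n) hv hv1 hδ hC.le
        (fun y y' V V' n hy hV h h' => h (regular_mono hy hV h'))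
        (fun x y V hx hy hV => by rw [add_comm (x ^ 2 / V)]; exact law x y V hx hy hV)) U
  · obtain ⟨B₁, C, hB₁, hC, law⟩ := descent_law
    refine ⟨B₁, hB₁, fun B hB f hf G d hG δ κ hδ hδ1 hκ h1 U => ?_⟩
    have hmin : min 1 (6 / 100 * δ) = 6 / 100 * δ := min_eq_right (by linarith)
    exact keep_good (fun n : ℕ => 1 ≤ n) (fun n => Descends B ((n : ℝ) ^ δ) n)
      (fun n : ℕ => (n : ℝ)) hf hG (s := 1 - 6 / 100 * δ) (κ := κ) (by linarith) hκ h1
      (by
        have h := Pool.Agent.N481.MV.two_scale (Bad := fun y _ n => ¬ Descends B y n) (c := 6 / 100) (v := 1) (p := 3)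
          one_pos le_rfl hδ hC.le
          (fun y y' V V' n hy hV h h' => h (desc_mono (hB₁.trans_le hB) le_rfl hy h'))
          (fun x y V hx hy hV => by
            have h1 : (0 : ℝ) ≤ x ^ 2 / V := div_nonneg (by positivity) (by linarith)
            have h2 : 0 ≤ C * Real.log x ^ 3 := by
              have := Real.log_nonneg (show (1 : ℝ) ≤ x by linarith)
              positivity
            refine (law B x y hB hx hy).trans (mul_le_mul_of_nonneg_left (by linarith) h2))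
        rw [hmin] at h
        exact h) U
  · rintro B δ n hn ⟨m, b1, b2⟩ hu
    obtain ⟨k, c1, c2⟩ := hu (T^[m] n) (iter_pos hn m) b1
    refine ⟨k + m, ?_, ?_⟩
    · have d1 : (0 : ℝ) < n := by exact_mod_cast hn
      have d2 : (0 : ℝ) < (T^[m] n : ℕ) := by exact_mod_cast iter_pos hn m
      rw [Real.log_div d1.ne' d2.ne'] at b2
      push_cast
      linarith
    · rw [Function.iterate_add_apply]; exact c2

end Pool.Agent.Results.MP_a1568a_nt.MultiplicativeValues
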