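import Pool.Agent.N905.EX.Law

set_option autoImplicit false

/-! Descent in logarithmic time, with the explicit exponent `0.06`. -/

namespace Pool.Agent.Results.MP_a1568a_nt.DescentExplicit

open Pool.Agent.TH930.LT Pool.Agent.N905.EX

/-- the `3x+1` function -/
def T (n : ℕ) : ℕ := if n % 2 = 0 then n / 2 else (3 * n + 1) / 2

/-- `n` reaches some `T^m(n) ≤ y` after `m ≤ B log (n / T^m(n))` steps -/
def Descends (B y : ℝ) (n : ℕ) : Prop :=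
  ∃ m : ℕ, ((T^[m] n : ℕ) : ℝ) ≤ y ∧ (m : ℝ) ≤ B * Real.log ((n : ℝ) / (T^[m] n : ℕ))

/-- `n` reaches `1` after at most `B log n` steps -/
def Fast (B : ℝ) (n : ℕ) : Prop := ∃ k : ℕ, (k : ℝ) ≤ B * Real.log n ∧ T^[k] n = 1

lemma T_eq : T = Pool.Agent.Helper894.Collatz.T := rfl

lemma iter_pos {n : ℕ} (hn : 1 ≤ n) (m : ℕ) : 0 < T^[m] n := by
  rw [T_eq]; exact Pool.Agent.H377R2.iter_pos hn m

lemma desc_iff {B y : ℝ} {n : ℕ} (hn : 1 ≤ n) : ¬ Descends B y n ↔ timeBad B y n := by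
  unfold Descends timeBad
  rw [T_eq, not_iff_not]
  apply exists_congr
  intro m
  have h1 : (0 : ℝ) < n := by exact_mod_cast hn
  have h2 : (0 : ℝ) < (Pool.Agent.Helper894.Collatz.T^[m] n : ℕ) := by
    exact_mod_cast Pool.Agent.H377R2.iter_pos hn m
  rw [Real.log_div h1.ne' h2.ne']

lemma set_eq (B x y : ℝ) : {n : ℕ | 1 ≤ n ∧ (n : ℝ) ≤ x ∧ ¬ Descends B y n} =
    {n : ℕ | 1 ≤ n ∧ (n : ℝ) ≤ x ∧ timeBad B y n} := by
  ext n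
  simp only [Set.mem_ofPred_eq]
  constructor
  · rintro ⟨h1, h2, h3⟩
    exact ⟨h1, h2, (desc_iff h1).1 h3⟩
  · rintro ⟨h1, h2, h3⟩
    exact ⟨h1, h2, (desc_iff h1).2 h3⟩

lemma desc_mono {B B' y : ℝ} {n : ℕ} (hB : 0 < B) (hBB : B ≤ B') (h : Descends B y n) : Descends B' y n := by
  obtain ⟨m, h1, h2⟩ := h
  refine ⟨m, h1, h2.trans ?_⟩
  apply mul_le_mul_of_nonneg_right hBB
  have h3 : (0 : ℝ) ≤ B * Real.log ((n : ℝ) / (T^[m] n : ℕ)) := le_trans (Nat.cast_nonneg m) h2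
  exact nonneg_of_mul_nonneg_right h3 hB

/-- There are `B₁` and `C` such that for all `B ≥ B₁`, `x ≥ 2`, `y ≥ 1` all but `C (log x)^3 x / y^0.06` of
the `n ≤ x` reach some `T^m(n) ≤ y` after `m ≤ B log (n / T^m(n))` steps; hence, if all `m ≤ y` reach `1`
after at most `B log m` steps, then all but `C (log x)^3 x / y^0.06` of the `n ≤ x` reach `1` after at
most `B log n` steps, with the same constant `B`. -/
theorem result : ∃ B₁ C : ℝ, 0 < B₁ ∧ 0 < C ∧ ∀ B x y : ℝ, B₁ ≤ B → 2 ≤ x → 1 ≤ y →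
    ({n : ℕ | 1 ≤ n ∧ (n : ℝ) ≤ x ∧ ¬ Descends B y n}.ncard : ℝ) ≤
      C * Real.log x ^ 3 * (x / y ^ (6 / 100 : ℝ)) ∧
    ((∀ m : ℕ, 1 ≤ m → (m : ℝ) ≤ y → Fast B m) →
      ({n : ℕ | 1 ≤ n ∧ (n : ℝ) ≤ x ∧ ¬ Fast B n}.ncard : ℝ) ≤
        C * Real.log x ^ 3 * (x / y ^ (6 / 100 : ℝ))) := by
  obtain ⟨a, C₁, ha0, -, hC₁, hQ⟩ := card_Ps
  have e94 : (1 : ℝ) - 6 / 100 = 94 / 100 := by norm_num
  obtain ⟨C, hC, h⟩ := time_law (c := 6 / 100) (B := 2 / a) ha0 hC₁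
    (fun i => by rw [e94]; exact hQ i)
    (by positivity) (by rw [div_mul_cancel₀ _ ha0.ne']; norm_num) (by norm_num) (by norm_num)
  have hB0 : 0 < 2 / a := by positivity
  refine ⟨2 / a, C, hB0, hC, fun B x y hB hx hy => ?_⟩
  have hfin : ∀ P : ℕ → Prop, {n : ℕ | 1 ≤ n ∧ (n : ℝ) ≤ x ∧ P n}.Finite := by
    intro P
    apply (Set.finite_Icc 1 ⌊x⌋₊).subset
    rintro n ⟨h1, h2, -⟩
    exact ⟨h1, Nat.le_floor h2⟩
  have h1 : ({n : ℕ | 1 ≤ n ∧ (n : ℝ) ≤ x ∧ ¬ Descends B y n}.ncard : ℝ) ≤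
      C * Real.log x ^ 3 * (x / y ^ (6 / 100 : ℝ)) := by
    have h2 := h x y hx hy
    rw [← set_eq] at h2
    refine le_trans ?_ h2
    have hsub : {n : ℕ | 1 ≤ n ∧ (n : ℝ) ≤ x ∧ ¬ Descends B y n} ⊆
        {n : ℕ | 1 ≤ n ∧ (n : ℝ) ≤ x ∧ ¬ Descends (2 / a) y n} := by
      rintro n ⟨a1, a2, a3⟩
      exact ⟨a1, a2, fun hd => a3 (desc_mono hB0 hB hd)⟩
    exact_mod_cast Set.ncard_le_ncard hsub (hfin _)
  refine ⟨h1, fun hm => le_trans ?_ h1⟩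
  have hsub : {n : ℕ | 1 ≤ n ∧ (n : ℝ) ≤ x ∧ ¬ Fast B n} ⊆
      {n : ℕ | 1 ≤ n ∧ (n : ℝ) ≤ x ∧ ¬ Descends B y n} := by
    rintro n ⟨a1, a2, a3⟩
    refine ⟨a1, a2, fun hd => a3 ?_⟩
    obtain ⟨m, b1, b2⟩ := hd
    obtain ⟨k, c1, c2⟩ := hm (T^[m] n) (iter_pos a1 m) b1
    refine ⟨k + m, ?_, ?_⟩
    · have d1 : (0 : ℝ) < n := by exact_mod_cast a1
      have d2 : (0 : ℝ) < (T^[m] n : ℕ) := by exact_mod_cast iter_pos a1 m
      rw [Real.log_div d1.ne' d2.ne'] at b2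
      push_cast
      linarith
    · rw [Function.iterate_add_apply]; exact c2
  exact_mod_cast Set.ncard_le_ncard hsub (hfin _)

end Pool.Agent.Results.MP_a1568a_nt.DescentExplicit
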