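import Pool.Agent.N158.PC.Chain2

/-!
# The logarithmic bound fails in the polynomial model of the 3x+1 problem

The Collatz map on polynomials over the field with two elements (degree plays the part of
`log₂ n`). Every nonzero polynomial reaches `1`; we show that for every `n` some polynomial of
degree `n` needs at least `(1/64) n log n` steps, so the stopping time is not bounded by a constant
times the degree.
-/

namespace Pool.Agent.Results.MP_a1568a_nt.PolynomialModel

open Polynomial Pool.Agent.N158.PC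

theorem stop_isLeast {f : (ZMod 2)[X]} (h : stop f ≠ 0) : IsLeast {k : ℕ | T^[k] f = 1} (stop f) := by
  have hne : {k : ℕ | T^[k] f = 1}.Nonempty := by
    by_contra h0
    rw [Set.not_nonempty_iff_eq_empty] at h0
    apply h
    unfold stop
    rw [h0, Nat.sInf_empty]
  exact ⟨Nat.sInf_mem hne, fun k hk => Nat.sInf_le hk⟩

/-- small degrees: the powers of `x`. -/
theorem stop_X_pow (n : ℕ) : IsLeast {k : ℕ | T^[k] ((X : (ZMod 2)[X]) ^ n) = 1} n := by
  have h1 : ∀ m : ℕ, T (X ^ (m + 1) : (ZMod 2)[X]) = X ^ m := by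
    intro m
    unfold T
    have h2 : (X ^ (m + 1) : (ZMod 2)[X]).coeff 0 = 0 := by
      rw [pow_succ, coeff_mul_X_zero]
    rw [h2, if_neg (by decide)]
    ext k
    rw [coeff_divX, coeff_X_pow, coeff_X_pow]
    by_cases hk : k = m <;> simp [hk]
  have h2 : ∀ k m : ℕ, T^[k] (X ^ (m + k) : (ZMod 2)[X]) = X ^ m := by
    intro k
    induction k with
    | zero => intro m; rfl
    | succ k ih =>
      intro m
      rw [Function.iterate_succ_apply, show m + (k + 1) = m + k + 1 by ring, h1, ih]
  constructor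
  · have := h2 n 0
    simpa using this
  · intro k hk
    by_contra hlt
    have hlt : k < n := by omega
    have := h2 k (n - k)
    rw [Nat.sub_add_cancel hlt.le] at this
    have hk' : T^[k] ((X : (ZMod 2)[X]) ^ n) = 1 := hk
    rw [this] at hk'
    have h3 := congrArg natDegree hk'
    rw [natDegree_X_pow, natDegree_one] at h3
    omega

/-- For every `n ≥ 1` there is a polynomial `f` over `F₂` of degree `n` whose stopping time `s`
(the least `k` with `T^k f = 1`) is at least `(1/64) n log n`. -/
theorem result : ∀ n : ℕ, 1 ≤ n → ∃ (f : (ZMod 2)[X]) (s : ℕ), f.natDegree = n ∧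
    IsLeast {k : ℕ | T^[k] f = 1} s ∧ (1 / 64 : ℝ) * n * Real.log n ≤ s := by
  intro n hn
  rcases Nat.lt_or_ge n 18 with h18 | h18
  · refine ⟨X ^ n, n, natDegree_X_pow n, stop_X_pow n, ?_⟩
    have h1 : Real.log n ≤ n := by
      have := Real.log_le_sub_one_of_pos (x := (n : ℝ)) (by exact_mod_cast hn)
      linarith
    have h2 : (n : ℝ) ≤ 18 := by exact_mod_cast h18.le
    have h3 : (0 : ℝ) ≤ n := Nat.cast_nonneg n
    nlinarith
  · obtain ⟨b, hb, hbn, hlog⟩ := Pool.Agent.N227.PC.num n h18
    obtain ⟨b, rfl⟩ : ∃ b', b = b' + 1 := ⟨b - 1, by omega⟩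
    have hs := stop_Hp (n - (2 ^ (2 * (b + 1) + 1) + 1) * 2 ^ (b + 1)) (2 * (b + 1) + 1) b le_rfl
    rw [Nat.sub_add_cancel hbn] at hs
    refine ⟨_, _, ?_, stop_isLeast (by rw [hs]; omega), ?_⟩
    · rw [natDegree_mul (pow_ne_zero _ X_ne_zero) (Hp_ne _ _), natDegree_X_pow, Hp_natDegree,
        Nat.sub_add_cancel hbn]
    · rw [hs]
      refine hlog.trans (le_of_eq ?_)
      push_cast
      ring

end Pool.Agent.Results.MP_a1568a_nt.PolynomialModel
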