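import Mathlib
import Pool.Agent.N909.CL.Sz

set_option autoImplicit false

/-!
# The sharp constant for total stopping times in random Collatz maps

A random Collatz map decides for every integer `n`, one after the other, whether `n` goes up to
`⌊(3n+1)/2⌋` or down to `⌊n/2⌋`; the conditional probability of going up, given the earlier decisions,
is only assumed to tend to `1/2` uniformly (no independence, no rate), and the trajectories of one map
merge.  Almost surely the longest trajectory with starting value at most `x` has `(c + o(1)) log x` terms,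
where `c = 41.6...` is the constant `1/(log 2 - p log 3)`, `H(p) = p log 3`, `1/2 < p < 1`, of the
models of Lagarias and Weiss with independent walks.

The parts of the proof in `Pool/Agent/N<k>/CL` are due to helpers 196 (weights), 433 (pairs of paths),
950 (sum over the second path), 645 (starting points), 868 (block words), 499, 18 (values and positions),
434 (second moments), 694, 624, 744 (parameters).
-/

open MeasureTheory Filter
open scoped Topology

namespace Pool.Agent.Results.MP_a1568a_nt.SharpConstantRandomMaps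

/-- the Collatz map in which the elements of `S` go up -/
noncomputable def colT (S : Set ℕ) (n : ℕ) : ℕ :=
  open Classical in if n ∈ S then (3 * n + 1) / 2 else n / 2

/-- the trajectory of `n` -/
def traj (S : Set ℕ) (n : ℕ) : Set ℕ := Set.range (fun i => (colT S)^[i] n)

/-- the number of different terms of the trajectory of `n` -/
noncomputable def len (S : Set ℕ) (n : ℕ) : ℕ := (traj S n).ncard

/-- the largest length of a trajectory with starting value at most `x` -/
noncomputable def longest (S : Set ℕ) (x : ℕ) : ℕ := (Finset.range (x + 1)).sup (len S)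

open Pool.Agent.R528.RM Pool.Agent.N909.CM

variable {Ω : Type} {B : ℕ → Set Ω}

lemma colT_eq (ω : Ω) : colT {n | ω ∈ B n} = T B ω := by
  funext n
  unfold colT T
  simp only [Set.mem_ofPred_eq]

lemma traj_eq (ω : Ω) (n : ℕ) : traj {n | ω ∈ B n} n = orb (T B ω) n := by
  unfold traj orb
  rw [colT_eq]

/-- **The sharp constant for total stopping times in random Collatz maps.**  There are `1/2 < p < 1` with
`H(p) = p log 3` (natural entropy) and `c = 1/(log 2 - p log 3)`, `41.6 < c < 41.7`, such that the following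
holds.  Let `(ℱ n)` be a filtration and `B n ∈ ℱ n` events (`n` goes up) with `P(B (n+1) | ℱ n) → 1/2`
uniformly.  Then almost surely every trajectory is finite, `limsup len(n)/log n = c`, the largest length of a
trajectory with starting value at most `x` is `(c + o(1)) log x`, and for every `γ < c` every interval
`(2^j, 2^(j+1)]` with `j` large contains an `n` with `len(n) > γ log n`. -/
theorem result : ∃ p c : ℝ, 1 / 2 < p ∧ p < 1 ∧ Real.binEntropy p = p * Real.log 3 ∧
    c = 1 / (Real.log 2 - p * Real.log 3) ∧ 41.6 < c ∧ c < 41.7 ∧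
    ∀ {Ω : Type} {m0 : MeasurableSpace Ω} (μ : Measure Ω) [IsProbabilityMeasure μ]
      (ℱ : Filtration ℕ m0) (B : ℕ → Set Ω), (∀ n, MeasurableSet[ℱ n] (B n)) →
      (∀ η : ℝ, 0 < η → ∀ᶠ n : ℕ in atTop, ∀ᵐ ω ∂μ,
        |(μ[(B (n + 1)).indicator (fun _ => (1 : ℝ)) | ℱ n]) ω - 1 / 2| ≤ η) →
      ∀ᵐ ω ∂μ, (∀ n, (traj {k | ω ∈ B k} n).Finite) ∧
        limsup (fun n : ℕ => (len {k | ω ∈ B k} n : ℝ) / Real.log n) atTop = c ∧
        Tendsto (fun x : ℕ => (longest {k | ω ∈ B k} x : ℝ) / Real.log x) atTop (𝓝 c) ∧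
        ∀ γ : ℝ, γ < c → ∀ᶠ j : ℕ in atTop, ∃ n : ℕ, 2 ^ j < n ∧ n ≤ 2 ^ (j + 1) ∧
          γ * Real.log n < (len {k | ω ∈ B k} n : ℝ) := by
  obtain ⟨p, hp, hp1, hpe, hc1, hc2⟩ := Pool.Agent.N909.CL.const
  refine ⟨p, _, hp, hp1, hpe, rfl, hc1, hc2, ?_⟩
  intro Ω m0 μ _ ℱ B hB hd
  have hc0 : 0 < 1 / (Real.log 2 - p * Real.log 3) := by linarith
  filter_upwards [Pool.Agent.N909.CL.size_all (μ := μ) (ℱ := ℱ) (B := B) hB hd hp hp1 hpe] with ω hω
  obtain ⟨g0, g1, g2⟩ := hω
  have hlen : ∀ n, (len {k | ω ∈ B k} n : ℝ) = ((orb (T B ω) n).ncard : ℝ) := by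
    intro n
    unfold len
    rw [traj_eq]
  refine ⟨fun n => by rw [traj_eq]; exact g0 n, ?_, ?_, ?_⟩
  · simp only [hlen]
    exact Pool.Agent.N909.CL.limsup_of hc0 (fun n => Nat.cast_nonneg _) g1 g2
  · refine Pool.Agent.N909.CL.max_lim (h := fun n => (len {k | ω ∈ B k} n : ℝ)) hc0 ?_ ?_ ?_ ?_
    · intro x n hn
      have : len {k | ω ∈ B k} n ≤ longest {k | ω ∈ B k} x :=
        Finset.le_sup (f := len {k | ω ∈ B k}) (Finset.mem_range.2 (by omega))
      exact_mod_cast this
    · intro x
      obtain ⟨n, hn, h⟩ := Finset.exists_mem_eq_sup (Finset.range (x + 1)) ⟨0, by simp⟩ (len {k | ω ∈ B k})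
      refine ⟨n, by rw [Finset.mem_range] at hn; omega, ?_⟩
      unfold longest
      rw [h]
    · simp only [hlen]
      exact g1
    · simp only [hlen]
      exact g2
  · intro γ hγ
    obtain ⟨γ', hg1, hg2⟩ := exists_between (max_lt hγ hc0)
    have hg0 : 0 < γ' := (le_max_right _ _).trans_lt hg1
    have hg1' : γ < γ' := (le_max_left _ _).trans_lt hg1
    filter_upwards [g2 γ' hg0 hg2] with j hj
    obtain ⟨n, hn, h3⟩ := hj
    rw [Finset.mem_Ioc] at hn
    refine ⟨n, hn.1, by rw [pow_succ]; omega, ?_⟩
    rw [hlen]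
    refine lt_of_le_of_lt (mul_le_mul_of_nonneg_right hg1'.le (Real.log_nonneg ?_)) h3
    have : 0 < 2 ^ j := by positivity
    exact_mod_cast (by omega : 1 ≤ n)

end Pool.Agent.Results.MP_a1568a_nt.SharpConstantRandomMaps
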